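import Pool.Agent.Lib.MP_455d73_gt.CS.Fin

set_option autoImplicit false

open Pool.Agent.MP_455d73_gt.CS

namespace Pool.Agent.Results.MP_455d73_gt.ConnectedSums

/-- Every simplicial connected sum `chain w` of finitely many copies of CP² (Kühnel's triangulation) and S² × S² (the product
triangulation), with any orientations of the copies, is PL homeomorphic to `H⁴ / Λ` for a discrete cocompact group `Λ` of
isometries of hyperbolic 4-space. -/
theorem result (w : List (Bool × Bool)) (hw : w ≠ []) :
    ∃ Λ : Subgroup (Equiv.Perm (Hyp 4)), Uniform Λ ∧ QuotPL Λ (real (chain w)) := by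
  exact main w hw

end Pool.Agent.Results.MP_455d73_gt.ConnectedSums
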