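import Pool.Agent.Lib.MP_455d73_gt.PQ.Fin

set_option autoImplicit false

open Pool.Agent.MP_455d73_gt.PQ

namespace Pool.Agent.Results.MP_455d73_gt.ProductQuotients

/-- Let `a + b = 4`, `a, b ≥ 1`, and let `Γ`, `Δ` be subgroups of finite index in the reflection groups `W a`, `W b`
(of the right-angled segment, pentagon, dodecahedron). Then the product of `Hᵃ / Γ` and `Hᵇ / Δ` is PL homeomorphic
to `H⁴ / Λ` for a discrete cocompact group `Λ` of isometries. -/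
theorem result (a b : ℕ) (ha : 0 < a) (hb : 0 < b) (hab : a + b = 4)
    (Γ : Subgroup (Equiv.Perm (Hyp a))) (hΓ : Γ ≤ W a) (hΓf : (Γ.subgroupOf (W a)).FiniteIndex)
    (Δ : Subgroup (Equiv.Perm (Hyp b))) (hΔ : Δ ≤ W b) (hΔf : (Δ.subgroupOf (W b)).FiniteIndex) :
    ∃ (ι κ : Type) (_ : Fintype ι) (_ : Fintype κ) (X : Set (ι → ℝ)) (Y : Set (κ → ℝ)),
      IsModel Γ X ∧ IsModel Δ Y ∧
        ∃ Λ : Subgroup (Equiv.Perm (Hyp 4)), Uniform Λ ∧ QuotPL Λ (prodSet X Y) := by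
  exact final a b ha hb hab Γ hΓ hΓf Δ hΔ hΔf

end Pool.Agent.Results.MP_455d73_gt.ProductQuotients
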